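import Pool.Agent.helper24.IC.Spec

set_option autoImplicit false

namespace Pool.Agent.IC

universe u

theorem TRA_chain {R S : Type u} [Ring R] [Ring S] (π : R →+* S) (hπ : Function.Surjective π)
    (h : Chain R) : Chain S := by
  obtain ⟨T, hm, hc, hs⟩ := h
  refine ⟨fun n => (T n).map π, ?_, ?_, ?_⟩
  · intro m n hmn x hx
    obtain ⟨y, hy, rfl⟩ := hx
    exact ⟨y, hm hmn hy, rfl⟩
  · intro r
    obtain ⟨s, rfl⟩ := hπ r
    obtain ⟨n, hn⟩ := hc s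
    exact ⟨n, s, hn, rfl⟩
  · intro n
    have := hs n
    let f : T n →+* (T n).map π :=
      (π.comp (T n).subtype).codRestrict ((T n).map π) (fun y => ⟨y, y.2, rfl⟩)
    refine RingHom.isSemisimpleRing_of_surjective f ?_
    rintro ⟨x, y, hy, rfl⟩
    exact ⟨⟨y, hy⟩, rfl⟩

theorem TRA_main (hSEQ : SEQ_stmt.{u}) (hMAC : MAC_stmt.{u}) (hWID : WID_stmt.{u})
    {R S : Type u} [Ring R] [Ring S] (π : R →+* S) (hπ : Function.Surjective π) (J : Ideal R)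
    (hJ : ∀ x, π x = 0 ↔ x ∈ J) (hR : Chain R) (e : R) (he : e * e = e) (heJ : e ∉ J)
    (h1 : ∀ f, f * e - f ∈ J → f ∉ J → ∃ h, h * f ∉ J ∧ ∀ r, r * (h * f) - f ∉ J)
    (h2 : ∀ f' f'', f' * f' - f' ∈ J → f'' * f'' - f'' ∈ J → e * f' - f' ∈ J → f' * e - f' ∈ J →
      e * f'' - f'' ∈ J → f'' * e - f'' ∈ J → f' ∉ J → f'' ∉ J → ∃ b, f'' * b * f' ∉ J) :
    ∃ L : Ideal R, J ≤ L ∧ (1 : R) ∉ L ∧ 1 - e ∈ L ∧ Uni L ∧ NoSoc L := by
  have hJe : ∀ x y, π x = π y ↔ x - y ∈ J := by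
    intro x y
    rw [← hJ, map_sub, sub_eq_zero]
  have hJn : ∀ x, π x ≠ 0 ↔ x ∉ J := fun x => not_congr (hJ x)
  have he' : π e * π e = π e := by rw [← map_mul, he]
  obtain ⟨T, E, ε, hD, hE1, hE2⟩ := hSEQ S (TRA_chain π hπ hR) (π e) he' ((hJn e).2 heJ) (by
    intro f hf hf0
    obtain ⟨f, rfl⟩ := hπ f
    rw [← map_mul, hJe] at hf
    obtain ⟨h, hh1, hh2⟩ := h1 f hf ((hJn f).1 hf0)
    refine ⟨π h, ?_, ?_⟩
    · rw [← map_mul]
      exact (hJn _).2 hh1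
    · intro r
      obtain ⟨r, rfl⟩ := hπ r
      rw [← map_mul, ← map_mul, Ne, hJe]
      exact hh2 r) (by
    intro f' f'' a1 a2 a3 a4 a5 a6 a7 a8
    obtain ⟨f', rfl⟩ := hπ f'
    obtain ⟨f'', rfl⟩ := hπ f''
    rw [← map_mul, hJe] at a1 a2 a3 a4 a5 a6
    obtain ⟨b, hb⟩ := h2 f' f'' a1 a2 a3 a4 a5 a6 ((hJn _).1 a7) ((hJn _).1 a8)
    refine ⟨π b, ?_⟩
    rw [← map_mul, ← map_mul]
    exact (hJn _).2 hb)
  obtain ⟨R', E', γ, hM, hE0⟩ := hMAC S T E ε hD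
  obtain ⟨L', hL1, hL2, hL3, hL4⟩ := hWID S R' E' γ hM
  refine ⟨L'.comap π, ?_, ?_, ?_, ?_, ?_⟩
  · intro x hx
    rw [Ideal.mem_comap, (hJ x).2 hx]
    exact L'.zero_mem
  · rw [Ideal.mem_comap, map_one]
    exact hL1
  · rw [Ideal.mem_comap, map_sub, map_one]
    have h3 : 1 - π e = (1 - π e) * (1 - E' 0) := by
      rw [hE0, mul_sub, mul_one, sub_mul, one_mul, hE1, sub_self, sub_zero]
    rw [h3]
    exact L'.mul_mem_left _ hL2
  · intro x y hx hy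
    obtain ⟨r, s, hr, hs⟩ := hL3 (π x) (π y) hx hy
    obtain ⟨r, rfl⟩ := hπ r
    obtain ⟨s, rfl⟩ := hπ s
    refine ⟨r, s, ?_, ?_⟩
    · rw [Ideal.mem_comap, map_mul]
      exact hr
    · rw [Ideal.mem_comap, map_sub, map_mul, map_mul]
      exact hs
  · intro x hx
    obtain ⟨r, hr, hs⟩ := hL4 (π x) hx
    obtain ⟨r, rfl⟩ := hπ r
    refine ⟨r, ?_, ?_⟩
    · rw [Ideal.mem_comap, map_mul]
      exact hr
    · intro s
      rw [Ideal.mem_comap, map_sub, map_mul, map_mul]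
      exact hs (π s)

theorem TRA (hSEQ : SEQ_stmt.{u}) (hMAC : MAC_stmt.{u}) (hWID : WID_stmt.{u}) : TRA_stmt.{u} := by
  intro R _ hR J hJ e he heJ h1 h2
  have hT : J.IsTwoSided := ⟨fun {a} b ha => hJ a ha b⟩
  exact TRA_main hSEQ hMAC hWID (Ideal.Quotient.mk J) Ideal.Quotient.mk_surjective J
    (fun x => Ideal.Quotient.eq_zero_iff_mem) hR e he heJ h1 h2

end Pool.Agent.IC
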